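import Pool.Agent.Helper569.FaultyDefs
import Pool.Agent.Helper569.FaultyFinal

open Pool.Agent.Helper569.Faulty

namespace Pool.Agent.Results.MP_75ee99_lc.NotCyclicMonotone

/-- For every detection probability `p` strictly between `0` and `1`, the infimum of the
competitive ratio over all trajectories is strictly smaller than the infimum over the cyclic
monotone trajectories. -/
theorem result (p : ℝ) (hp0 : 0 < p) (hp1 : p < 1) :
    (⨅ (y : ℕ → ℝ) (_ : IsTrajectory y), competitiveRatio p y) <
      ⨅ (y : ℕ → ℝ) (_ : IsTrajectory y) (_ : IsCyclicMonotone y), competitiveRatio p y :=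
  strict hp0 hp1

end Pool.Agent.Results.MP_75ee99_lc.NotCyclicMonotone
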